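import Pool.Agent.Helper992.Solid6

/-!
MP_ccd76d_co: in every Euclidean space, every solid packing of congruent copies of a convex body
that has at least two members is uniformly finitely stable. A packing with exactly one member is
solid for trivial reasons and is not uniformly finitely stable, so this is the exact answer.
-/

set_option autoImplicit false

universe u

namespace Pool.Agent.Results.MP_ccd76d_co.SolidStable

/-- the Euclidean space of dimension `d` -/
abbrev E (d : ℕ) := EuclideanSpace ℝ (Fin d)

/-- a convex body: a compact convex set with nonempty interior -/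
def IsConvexBody {d : ℕ} (K : Set (E d)) : Prop :=
  IsCompact K ∧ Convex ℝ K ∧ (interior K).Nonempty

/-- `B` is a congruent copy of `A`: the image of `A` under an isometry of the space -/
def Congruent {d : ℕ} (A B : Set (E d)) : Prop := ∃ g : E d ≃ᵢ E d, g '' A = B

/-- a packing of congruent copies of `K`: a family of congruent copies of `K` whose interiors are
pairwise disjoint -/
def IsPacking {d : ℕ} {ι : Type*} (K : Set (E d)) (C : ι → Set (E d)) : Prop :=
  (∀ i, Congruent K (C i)) ∧ ∀ i j, i ≠ j → Disjoint (interior (C i)) (interior (C j))

/-- a solid packing: whenever finitely many members are replaced by congruent copies, placed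
anywhere, and the result `C'` is again a packing, then `C'` is congruent to `C`, that is, some
isometry of the space maps the family `C` onto the family `C'` -/
def IsSolid {d : ℕ} {ι : Type*} (K : Set (E d)) (C : ι → Set (E d)) : Prop :=
  IsPacking K C ∧ ∀ C' : ι → Set (E d), {i | C' i ≠ C i}.Finite → IsPacking K C' →
    ∃ g : E d ≃ᵢ E d, (fun A => g '' A) '' Set.range C = Set.range C'

/-- uniform finite stability: there is one `ε > 0` such that whenever finitely many members are
replaced by congruent copies at Hausdorff distance less than `ε` from the members they replace,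
and the result `C'` is again a packing, then nothing has changed -/
def UniformlyFinitelyStable {d : ℕ} {ι : Type*} (K : Set (E d)) (C : ι → Set (E d)) : Prop :=
  ∃ ε : ℝ, 0 < ε ∧ ∀ C' : ι → Set (E d), {i | C' i ≠ C i}.Finite → IsPacking K C' →
    (∀ i, Metric.hausdorffDist (C i) (C' i) < ε) → C' = C

/-- Every solid packing with at least two members is uniformly finitely stable, in every dimension
and for every convex body; and a packing with exactly one member is always solid and never
uniformly finitely stable (in dimension at least one). -/
theorem result :
    (∀ (d : ℕ) (K : Set (E d)), IsConvexBody K → ∀ (ι : Type u) (C : ι → Set (E d)),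
      (∃ i j : ι, i ≠ j) → IsSolid K C → UniformlyFinitelyStable K C) ∧
    (∀ (d : ℕ) (K : Set (E d)), 1 ≤ d → IsConvexBody K → ∀ (ι : Type u) (C : ι → Set (E d)),
      (∃ i : ι, ∀ j : ι, j = i) → IsPacking K C →
        IsSolid K C ∧ ¬ UniformlyFinitelyStable K C) := by
  refine ⟨?_, ?_⟩
  · intro d K hK ι C hι hC
    haveI : Nontrivial ι := ⟨hι⟩
    exact Pool.Agent.Helper992.Solid.solid_ufs hK hC
  · rintro d K hd hK ι C ⟨i, hi⟩ hC
    exact Pool.Agent.Helper992.Solid.single_body hd hK i hi (hC.1 i)

end Pool.Agent.Results.MP_ccd76d_co.SolidStable
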